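import Pool.Agent.H27.FunField
import Pool.Agent.H27.Existence

/-!
# Disproof of the section conjecture for the Nori fundamental gerbe

For every `n ≥ 0`, over the field `κ = 𝔽₂(t_1, …, t_n)`, which is finitely generated over its prime
subfield, there is a proper smooth geometrically connected curve `X` of genus `2` such that the map
`σ_X` from `X(κ)` to the set of isomorphism classes of `κ`-points of the Nori fundamental gerbe of
`X` is not bijective.
-/

open CategoryTheory AlgebraicGeometry

namespace Pool.Agent.Results.MP_e6d05b_ag.Disproof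

open Pool.Agent.H27

theorem result (n : ℕ) :
    let κ : Type := FractionRing (MvPolynomial (Fin n) (ZMod 2))
    (∃ s : Finset κ, Subfield.closure (s : Set κ) = ⊤) ∧
    ∃ X : Over (Spec (CommRingCat.of κ)), IsProper X.hom ∧ SmoothOfRelativeDimension 1 X.hom ∧
      GeometricallyConnected X.hom ∧ HasGenus X 2 ∧
      IsEmpty (specOver (CommAlgCat.of κ κ) ⟶ X) ∧
      (∃ (G : BasedCategory.{0, 1} (CommAlgCat.{0} κ)) (p : schemeStack X ⟶ G),
        IsNoriFundamentalGerbe X G p) ∧
      ∀ (G : BasedCategory.{0, 1} (CommAlgCat.{0} κ)) (p : schemeStack X ⟶ G),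
        IsNoriFundamentalGerbe X G p →
          Nonempty (IsoClasses G) ∧ ¬ Function.Bijective (sigma X G p) := by
  intro κ
  exact ⟨RatF.exists_generators n, Curve.C κ, Curve.isProper_C κ, Curve.smooth_C κ,
    Curve.geometricallyConnected_C κ, Curve.hasGenus_C κ, RatF.isEmpty_points n,
    Curve.exists_gerbe κ, fun G p h ↦ ⟨Curve.nonempty_isoClasses κ G p h.isProfiniteGerbe,
      Curve.main κ (RatF.isEmpty_points n) G p h.isProfiniteGerbe⟩⟩

end Pool.Agent.Results.MP_e6d05b_ag.Disproof
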