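import Pool.Agent.H27.HC.Final
import Pool.Agent.H27.HC.Data
import Pool.Agent.H27.HC.Smooth
import Pool.Agent.H27.HC.Sections
import Pool.Agent.H27.HC.Rat

/-!
# The section conjecture for the Nori fundamental gerbe fails over every field of characteristic `p`

Let `p` be a prime number.  For every field `κ` of characteristic `p` (no other condition; in
particular for every such field which is finitely generated over its prime subfield) and for every
`g ≥ 2` with `p (p - 1) ≤ 2 g` or `p ∣ g + 1` there is a proper smooth geometrically connected curve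
`X` of genus `g` over `κ` for which the map `σ_X` from `X(κ)` to the set of isomorphism classes of
`κ`-points of the Nori fundamental gerbe of `X` is not bijective.

If moreover `κ` has a place with values in the field with `p` elements, for instance if `κ` is the
field of rational functions in `n` variables over the field with `p` elements, then `X(κ)` is empty
whereas the Nori fundamental gerbe of `X` has a `κ`-point.
-/

open CategoryTheory AlgebraicGeometry

namespace Pool.Agent.Results.MP_e6d05b_ag.EveryField

open Pool.Agent.H27

theorem result (p : ℕ) [Fact p.Prime] :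
    (∀ g : ℕ, 2 ≤ g → (p * (p - 1) ≤ 2 * g ∨ p ∣ g + 1) →
      ∀ (κ : Type) [Field κ] [CharP κ p],
        ∃ X : Over (Spec (CommRingCat.of κ)), IsProper X.hom ∧ SmoothOfRelativeDimension 1 X.hom ∧
          GeometricallyConnected X.hom ∧ HasGenus X g ∧
          (∃ (G : BasedCategory.{0, 1} (CommAlgCat.{0} κ)) (q : schemeStack X ⟶ G),
            IsNoriFundamentalGerbe X G q) ∧
          (∀ (G : BasedCategory.{0, 1} (CommAlgCat.{0} κ)) (q : schemeStack X ⟶ G),
            IsNoriFundamentalGerbe X G q →
              Nonempty (IsoClasses G) ∧ ¬ Function.Bijective (sigma X G q)) ∧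
          ∀ V : ValuationSubring κ, Nonempty (V →+* ZMod p) →
            IsEmpty (specOver (CommAlgCat.of κ κ) ⟶ X)) ∧
    ∀ n : ℕ, let κ : Type := FractionRing (MvPolynomial (Fin n) (ZMod p))
      CharP κ p ∧ (∃ s : Finset κ, Subfield.closure (s : Set κ) = ⊤) ∧
        ∃ V : ValuationSubring κ, Nonempty (V →+* ZMod p) := by
  refine ⟨fun g hg hgp κ _ _ ↦ ?_, fun n ↦ ⟨?_, HC.exists_generators p n,
    HC.exists_place_rat p n⟩⟩
  · obtain ⟨D, hD, hm⟩ := HC.exists_good p g hg hgp
    refine ⟨HC.C D κ, HC.isProper_C D κ, HC.smooth_C hD κ, HC.geometricallyConnected_C hD κ, ?_,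
      HC.exists_gerbe hD κ, fun G q h ↦ ⟨HC.nonempty_isoClasses hD κ G q h.isProfiniteGerbe,
        HC.not_bijective hD κ G q h⟩, fun V ⟨r⟩ ↦ HC.isEmpty_points hD κ V r⟩
    have h := HC.hasGenus_C D κ
    rwa [hm, Nat.add_sub_cancel] at h
  · exact charP_of_injective_algebraMap (R := MvPolynomial (Fin n) (ZMod p))
      (IsFractionRing.injective _ _) p

end Pool.Agent.Results.MP_e6d05b_ag.EveryField
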